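import Mathlib

/-!
# A maximal ideal is not a countable union of smaller ideals (uncountable residue field)
-/

set_option autoImplicit false

open IsLocalRing

namespace EA7

/-- Task K (covering lemma). -/
theorem not_countable_cover {R : Type} [CommRing R] [IsNoetherianRing R] [IsLocalRing R]
    (hk : ¬ Countable (ResidueField R)) (J : ℕ → Ideal R)
    (hJ : ∀ n, ¬ maximalIdeal R ≤ J n)
    (hcov : ∀ x ∈ maximalIdeal R, ∃ n, x ∈ J n) : False := by
  classical
  obtain ⟨s, y, hy⟩ := (Submodule.fg_iff_exists_fin_generating_family).1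
    (IsNoetherian.noetherian (maximalIdeal R))
  have hym : ∀ i, y i ∈ maximalIdeal R := fun i => by
    rw [← hy]; exact Submodule.subset_span ⟨i, rfl⟩
  set τ : ResidueField R → R := Function.surjInv (residue_surjective (R := R)) with hτ
  have hτ' : ∀ t, residue R (τ t) = t := Function.surjInv_eq residue_surjective
  set x : ResidueField R → R := fun t => ∑ i : Fin s, τ t ^ (i : ℕ) * y i with hx
  have hxm : ∀ t, x t ∈ maximalIdeal R := fun t =>
    Ideal.sum_mem _ fun i _ => Ideal.mul_mem_left _ _ (hym i)
  choose n hn using fun t => hcov (x t) (hxm t)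
  -- an infinite fibre
  obtain ⟨j, hj⟩ : ∃ j, {t | n t = j}.Infinite := by
    by_contra h
    push Not at h
    apply hk
    have : (Set.univ : Set (ResidueField R)) = ⋃ j, {t | n t = j} := by
      ext t; simp
    rw [← Set.countable_univ_iff, this]
    exact Set.countable_iUnion fun j => (h j).countable
  have := hj.to_subtype
  set e := Infinite.natEmbedding {t | n t = j} with he
  set v : Fin s → R := fun i => τ (e i : ResidueField R) with hv
  set V := Matrix.vandermonde v with hV
  have hdet : IsUnit V.det := by
    rw [hV, Matrix.det_vandermonde]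
    rw [IsUnit.prod_iff]
    intro a _
    rw [IsUnit.prod_iff]
    intro b hb
    rw [Finset.mem_Ioi] at hb
    rw [← IsLocalRing.residue_ne_zero_iff_isUnit, map_sub, hv]
    simp only [hτ']
    rw [sub_ne_zero]
    intro h
    have h1 : e (b : ℕ) = e (a : ℕ) := Subtype.ext h
    have h2 := e.injective h1
    exact hb.ne' (Fin.ext h2)
  have hmul : ∀ i, (V.mulVec y) i = x (e i) := by
    intro i
    simp only [Matrix.mulVec, dotProduct, hV, Matrix.vandermonde_apply, hx, hv]
  have hmem : ∀ i, (V.mulVec y) i ∈ J j := by
    intro i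
    rw [hmul]
    have h1 := hn (e i : ResidueField R)
    have h2 : n (e i : ResidueField R) = j := (e i).2
    rwa [h2] at h1
  apply hJ j
  rw [← hy, Submodule.span_le]
  rintro _ ⟨i, rfl⟩
  have h1 : V.det • y = V.adjugate.mulVec (V.mulVec y) := by
    rw [Matrix.mulVec_mulVec, Matrix.adjugate_mul, Matrix.smul_mulVec, Matrix.one_mulVec]
  have h2 : V.det * y i ∈ J j := by
    have := congrFun h1 i
    simp only [Pi.smul_apply, smul_eq_mul] at this
    rw [this]
    simp only [Matrix.mulVec, dotProduct]
    apply Ideal.sum_mem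
    intro l _
    exact Ideal.mul_mem_left _ _ (hmem l)
  obtain ⟨u, hu⟩ := hdet
  rw [← hu] at h2
  have := Ideal.mul_mem_left (J j) ((u⁻¹ : Rˣ) : R) h2
  rwa [← mul_assoc, Units.inv_mul, one_mul] at this

end EA7
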