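import Mathlib

/-!
# Principal reductions of the maximal ideal in dimension one
-/

set_option autoImplicit false

open IsLocalRing
open scoped Pointwise

namespace EA7

namespace Red

section WB

variable {D : Type} [CommRing D]

/-- `c` is integral-like over `w` modulo higher powers of `m` -/
def WB (m : Ideal D) (w : D) (c : Ideal D) : Prop :=
  ∃ b : ℕ, c ^ (b + 1) ≤ Ideal.span {w} * m ^ b ⊔ m ^ (b + 2)

variable {m : Ideal D} {w : D} {c c' : Ideal D}

theorem WB.mono (h : WB m w c') (hc : c ≤ c') : WB m w c := by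
  obtain ⟨b, hb⟩ := h
  exact ⟨b, (Ideal.pow_right_mono hc _).trans hb⟩

theorem WB.self : WB m w (Ideal.span {w}) := by
  refine ⟨0, ?_⟩
  simp only [zero_add, pow_one, pow_zero, Ideal.one_eq_top, Ideal.mul_top]
  exact le_sup_left

theorem up {b n : ℕ} (h : c ^ (b + 1) ≤ Ideal.span {w} * m ^ b ⊔ m ^ (b + 2)) :
    c ^ (b + 1) * m ^ n ≤ Ideal.span {w} * m ^ (b + n) ⊔ m ^ (b + n + 2) := by
  calc c ^ (b + 1) * m ^ n ≤ (Ideal.span {w} * m ^ b ⊔ m ^ (b + 2)) * m ^ n :=
        Ideal.mul_mono_left h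
    _ = Ideal.span {w} * m ^ (b + n) ⊔ m ^ (b + n + 2) := by
        rw [Ideal.sup_mul, mul_assoc, ← pow_add, ← pow_add]
        congr 2
        ring

theorem WB.sup (hc : c ≤ m) (hc' : c' ≤ m) (h : WB m w c) (h' : WB m w c') :
    WB m w (c ⊔ c') := by
  obtain ⟨b1, h1⟩ := h
  obtain ⟨b2, h2⟩ := h'
  refine ⟨b1 + b2 + 1, ?_⟩
  rw [← Ideal.add_eq_sup (I := c), add_pow, Ideal.sum_eq_sup]
  apply Finset.sup_le
  intro i hi
  rw [Finset.mem_range] at hi
  refine Ideal.mul_le_left.trans ?_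
  by_cases hn : b1 + 1 ≤ i
  · obtain ⟨n, rfl⟩ := Nat.exists_eq_add_of_le hn
    have e : b1 + b2 + 1 + 1 - (b1 + 1 + n) = b2 + 1 - n := by omega
    rw [e, pow_add, mul_assoc]
    have h3 : c ^ n * c' ^ (b2 + 1 - n) ≤ m ^ (b2 + 1) := by
      calc c ^ n * c' ^ (b2 + 1 - n) ≤ m ^ n * m ^ (b2 + 1 - n) :=
            Ideal.mul_mono (Ideal.pow_right_mono hc _) (Ideal.pow_right_mono hc' _)
        _ = m ^ (b2 + 1) := by rw [← pow_add]; congr 1; omega
    refine (Ideal.mul_mono_right h3).trans ((up h1).trans ?_)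
    rw [show b1 + (b2 + 1) = b1 + b2 + 1 from by ring]
  · have hn' : b2 + 1 ≤ b1 + b2 + 1 + 1 - i := by omega
    obtain ⟨n, hn2⟩ := Nat.exists_eq_add_of_le hn'
    rw [hn2, pow_add, mul_comm, mul_assoc]
    have h3 : c' ^ n * c ^ i ≤ m ^ (b1 + 1) := by
      calc c' ^ n * c ^ i ≤ m ^ n * m ^ i :=
            Ideal.mul_mono (Ideal.pow_right_mono hc' _) (Ideal.pow_right_mono hc _)
        _ = m ^ (b1 + 1) := by rw [← pow_add]; congr 1; omega
    refine (Ideal.mul_mono_right h3).trans ((up h2).trans ?_)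
    rw [show b2 + (b1 + 1) = b1 + b2 + 1 from by ring]

theorem WB.trans {y : D} (hy : y ∈ m) (h : WB m w (Ideal.span {y})) (h' : WB m y c) :
    WB m w c := by
  obtain ⟨a, ha⟩ := h
  obtain ⟨b, hb⟩ := h'
  refine ⟨a + b * (a + 1), ?_⟩
  have e : a + b * (a + 1) + 1 = (b + 1) * (a + 1) := by ring
  rw [e, pow_mul]
  refine (Ideal.pow_right_mono hb _).trans ?_
  rw [← Ideal.add_eq_sup, add_pow, Ideal.sum_eq_sup]
  apply Finset.sup_le
  intro i hi
  rw [Finset.mem_range] at hi
  refine Ideal.mul_le_left.trans ?_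
  by_cases hn : i = a + 1
  · rw [hn, Nat.sub_self, pow_zero, mul_one, mul_pow, ← pow_mul]
    exact up ha
  · refine le_trans ?_ le_sup_right
    have h1 : Ideal.span {y} ≤ m := by
      rw [Ideal.span_singleton_le_iff_mem]; exact hy
    obtain ⟨n, hn2⟩ : ∃ n, a + 1 - i = n + 1 := ⟨a - i, by omega⟩
    calc (Ideal.span {y} * m ^ b) ^ i * (m ^ (b + 2)) ^ (a + 1 - i)
        ≤ (m * m ^ b) ^ i * (m ^ (b + 2)) ^ (a + 1 - i) :=
          Ideal.mul_mono_left (Ideal.pow_right_mono (Ideal.mul_mono_left h1) _)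
      _ = m ^ ((b + 1) * i + (b + 2) * (a + 1 - i)) := by
          rw [← pow_succ', ← pow_mul, ← pow_mul, ← pow_add]
      _ ≤ m ^ (a + b * (a + 1) + 2) := by
          apply Ideal.pow_le_pow_right
          have : a + 1 = i + (n + 1) := by omega
          rw [hn2]
          have e2 : a = i + n := by omega
          subst e2
          nlinarith

end WB

section dep

variable {D : Type} [CommRing D]

/-- length of a chain between `r I` and `I` -/
theorem dep (r : D) (hreg : r ∈ nonZeroDivisors D) {l : ℕ} (hl : Ring.ord D r ≤ l) (i : ℕ)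
    {m : Ideal D} (hr : r ∈ m) (z : ℕ → D) (hz : ∀ b, z b ∈ m ^ i) :
    ∃ a ≤ l, z a ∈ m ^ (i + 1) ⊔ Ideal.span (z '' {b | b < a}) := by
  set N : ℕ → Ideal D := fun a => m ^ (i + 1) ⊔ Ideal.span (z '' {b | b < a}) with hN
  by_contra hcon
  push Not at hcon
  have hstep : ∀ a ≤ l, N a < N (a + 1) := by
    intro a ha
    apply lt_of_le_of_ne
    · apply sup_le_sup_left
      apply Ideal.span_mono
      apply Set.image_mono
      intro b hb
      exact Nat.lt_succ_of_lt hb
    · intro h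
      apply hcon a ha
      change z a ∈ N a
      rw [h]
      exact Ideal.mem_sup_right (Ideal.subset_span ⟨a, Nat.lt_succ_self a, rfl⟩)
  have hco : ∀ a ≤ l + 1, Order.coheight (N a) + a ≤ Order.coheight (N 0) := by
    intro a
    induction a with
    | zero => intro _; simp
    | succ a ih =>
      intro ha
      have h1 := ih (by omega)
      have h2 := Order.coheight_add_one_le (hstep a (by omega))
      calc Order.coheight (N (a + 1)) + ((a + 1 : ℕ) : ℕ∞)
          = (Order.coheight (N (a + 1)) + 1) + (a : ℕ∞) := by push_cast; ring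
        _ ≤ Order.coheight (N a) + a := by gcongr
        _ ≤ _ := h1
  have hle : N (l + 1) ≤ m ^ i := by
    apply sup_le
    · exact Ideal.pow_le_pow_right (Nat.le_succ i)
    · rw [Ideal.span_le]
      rintro _ ⟨b, -, rfl⟩
      exact hz b
  have hge : r • (m ^ i) ≤ N 0 := by
    refine le_trans ?_ le_sup_left
    rintro _ ⟨x, hx, rfl⟩
    rw [pow_succ, mul_comm]
    exact Ideal.mul_mem_mul hr hx
  have hlen : Module.length D (D ⧸ (r • (m ^ i) : Ideal D))
      = Module.length D (D ⧸ (m ^ i)) + Ring.ord D r :=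
    Module.length_eq_add_of_exact (Ideal.mulQuot r (m ^ i))
      (Ideal.quotOfMul r (m ^ i)) (Ideal.mulQuot_injective (m ^ i) hreg)
      (Ideal.quotOfMul_surjective (m ^ i))
      (Ideal.exact_mulQuot_quotOfMul (m ^ i))
  have hfin : Module.length D (D ⧸ (m ^ i)) ≠ ⊤ := by
    have h1 : Ring.ord D (r ^ i) ≠ ⊤ := by
      rw [Ring.ord_pow hreg]
      obtain ⟨n0, hn0⟩ := ENat.ne_top_iff_exists.1 (hl.trans_lt (ENat.natCast_lt_top l)).ne
      rw [← hn0, nsmul_eq_mul, ← Nat.cast_mul]
      exact ENat.natCast_ne_top _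
    have h2 : Ideal.span {r ^ i} ≤ m ^ i := by
      rw [Ideal.span_singleton_le_iff_mem]
      exact Ideal.pow_mem_pow hr i
    have h3 : Module.length D (D ⧸ (m ^ i)) ≤ Ring.ord D (r ^ i) :=
      Module.length_le_of_surjective (Submodule.factor h2) (Submodule.factor_surjective h2)
    exact (h3.trans_lt (lt_top_iff_ne_top.2 h1)).ne
  have e1 := hco (l + 1) le_rfl
  have e2 : Order.coheight (m ^ i) ≤ Order.coheight (N (l + 1)) := Order.coheight_anti hle
  have e3 : Order.coheight (N 0) ≤ Order.coheight (r • (m ^ i)) := Order.coheight_anti hge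
  rw [Module.length_quotient, Module.length_quotient] at hlen
  rw [Module.length_quotient] at hfin
  rw [hlen] at e3
  have e4 : Order.coheight (m ^ i) + ((l + 1 : ℕ) : ℕ∞) ≤ Order.coheight (m ^ i) + l := by
    calc _ ≤ Order.coheight (N (l + 1)) + ((l + 1 : ℕ) : ℕ∞) := by gcongr
      _ ≤ Order.coheight (N 0) := e1
      _ ≤ _ := e3
      _ ≤ _ := by gcongr
  rw [ENat.add_le_add_iff_left hfin, Nat.cast_le] at e4
  omega

end dep

section two

variable {D : Type} [CommRing D]

theorem pow_sub_pow_mem {m : Ideal D} {x y : D} (hx : x ∈ m) (hy : y ∈ m) (n : ℕ) :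
    x ^ (n + 1) - y ^ (n + 1) ∈ Ideal.span {x - y} * m ^ n := by
  induction n with
  | zero =>
    simp only [zero_add, pow_one, pow_zero, Ideal.one_eq_top, Ideal.mul_top]
    exact Ideal.mem_span_singleton_self _
  | succ n ih =>
    have e : x ^ (n + 1 + 1) - y ^ (n + 1 + 1)
        = (x - y) * x ^ (n + 1) + (x ^ (n + 1) - y ^ (n + 1)) * y := by ring
    rw [e]
    apply Ideal.add_mem
    · exact Ideal.mul_mem_mul (Ideal.mem_span_singleton_self _) (Ideal.pow_mem_pow hx _)
    · rw [pow_succ m, ← mul_assoc]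
      exact Ideal.mul_mem_mul ih hy

/-- elements of `span (z '' {b | b < a})` -/
theorem mem_span_lt {z : ℕ → D} {a : ℕ} {x : D} (hx : x ∈ Ideal.span (z '' {b | b < a})) :
    ∃ c : ℕ → D, x = ∑ b ∈ Finset.range a, c b * z b := by
  induction a generalizing x with
  | zero =>
    simp only [not_lt_zero, Set.ofPred_false, Set.image_empty, Ideal.span_empty,
      Ideal.mem_bot] at hx
    exact ⟨0, by simp [hx]⟩
  | succ a ih =>
    have e : z '' {b | b < a + 1} = insert (z a) (z '' {b | b < a}) := by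
      ext t
      simp only [Set.mem_image, Set.mem_insert_iff, Set.mem_ofPred_eq]
      constructor
      · rintro ⟨b, hb, rfl⟩
        rcases Nat.lt_succ_iff_lt_or_eq.1 hb with h | h
        · exact Or.inr ⟨b, h, rfl⟩
        · exact Or.inl (by rw [h])
      · rintro (h | ⟨b, hb, rfl⟩)
        · exact ⟨a, Nat.lt_succ_self a, h.symm⟩
        · exact ⟨b, Nat.lt_succ_of_lt hb, rfl⟩
    rw [e, Ideal.mem_span_insert] at hx
    obtain ⟨c0, t, ht, rfl⟩ := hx
    obtain ⟨c, rfl⟩ := ih ht
    refine ⟨fun b => if b = a then c0 else c b, ?_⟩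
    rw [Finset.sum_range_succ, add_comm]
    dsimp only
    rw [if_pos rfl]
    congr 1
    apply Finset.sum_congr rfl
    intro b hb
    rw [Finset.mem_range] at hb
    rw [if_neg hb.ne]

theorem two [IsLocalRing D] (hinf : Infinite (ResidueField D)) (r : D)
    (hreg : r ∈ nonZeroDivisors D) {l : ℕ} (hl : Ring.ord D r ≤ l) (h1 : 1 ≤ l)
    (hr : r ∈ maximalIdeal D) {y1 y2 : D} (hy1 : y1 ∈ maximalIdeal D)
    (hy2 : y2 ∈ maximalIdeal D) :
    ∃ w ∈ maximalIdeal D, WB (maximalIdeal D) w (Ideal.span {y1}) ∧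
      WB (maximalIdeal D) w (Ideal.span {y2}) := by
  set m := maximalIdeal D with hm
  obtain ⟨a, ha, hmem⟩ := dep r hreg hl l hr (fun b => if b ≤ l then y1 ^ (l - b) * y2 ^ b else 0)
    (fun b => by
      split_ifs with hb
      · have : m ^ l = m ^ (l - b) * m ^ b := by rw [← pow_add]; congr 1; omega
        rw [this]
        exact Ideal.mul_mem_mul (Ideal.pow_mem_pow hy1 _) (Ideal.pow_mem_pow hy2 _)
      · exact Ideal.zero_mem _)
  rw [if_pos ha, Submodule.mem_sup] at hmem
  obtain ⟨u, hu, v, hv, huv⟩ := hmem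
  obtain ⟨c, rfl⟩ := mem_span_lt hv
  have hsum : ∑ b ∈ Finset.range a, c b * (if b ≤ l then y1 ^ (l - b) * y2 ^ b else 0)
      = ∑ b ∈ Finset.range a, c b * (y1 ^ (l - b) * y2 ^ b) := by
    apply Finset.sum_congr rfl
    intro b hb
    rw [Finset.mem_range] at hb
    rw [if_pos (by omega)]
  rw [hsum] at huv
  -- the polynomial over the residue field
  set C : Polynomial (ResidueField D) := Polynomial.X ^ (l - a)
    - ∑ b ∈ Finset.range a, Polynomial.C (residue D (c b)) * Polynomial.X ^ (l - b) with hC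
  have hC0 : C ≠ 0 := by
    intro h
    have h2 := congrArg (fun q => Polynomial.coeff q (l - a)) h
    simp only [hC, Polynomial.coeff_sub, Polynomial.coeff_X_pow, if_true, Polynomial.finsetSum_coeff,
      Polynomial.coeff_C_mul, Polynomial.coeff_zero] at h2
    rw [Finset.sum_eq_zero, sub_zero] at h2
    · exact one_ne_zero h2
    · intro b hb
      rw [Finset.mem_range] at hb
      rw [if_neg (by omega), mul_zero]
  obtain ⟨t, ht⟩ : ∃ t, C.eval t ≠ 0 := by
    by_contra hcon
    push Not at hcon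
    exact hC0 (Polynomial.zero_of_eval_zero C hcon)
  obtain ⟨μ, rfl⟩ := residue_surjective (R := D) t
  -- w = y1 - μ y2
  set w := y1 - μ * y2 with hw
  have hwm : w ∈ m := Ideal.sub_mem _ hy1 (Ideal.mul_mem_left _ _ hy2)
  obtain ⟨l', rfl⟩ : ∃ l', l = l' + 1 := ⟨l - 1, by omega⟩
  have key : ∀ b ≤ l' + 1, y1 ^ (l' + 1 - b) * y2 ^ b - μ ^ (l' + 1 - b) * y2 ^ (l' + 1)
      ∈ Ideal.span {w} * m ^ l' := by
    intro b hb
    rcases Nat.lt_or_eq_of_le hb with hb | rfl
    · obtain ⟨n, hn⟩ : ∃ n, l' + 1 - b = n + 1 := ⟨l' - b, by omega⟩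
      have e : y1 ^ (l' + 1 - b) * y2 ^ b - μ ^ (l' + 1 - b) * y2 ^ (l' + 1)
          = (y1 ^ (n + 1) - (μ * y2) ^ (n + 1)) * y2 ^ b := by
        rw [hn, mul_pow]
        have : l' + 1 = n + 1 + b := by omega
        rw [this, pow_add y2]; ring
      rw [e]
      have e2 : m ^ l' = m ^ n * m ^ b := by rw [← pow_add]; congr 1; omega
      rw [e2, ← mul_assoc]
      exact Ideal.mul_mem_mul (pow_sub_pow_mem hy1 (Ideal.mul_mem_left _ _ hy2) n)
        (Ideal.pow_mem_pow hy2 _)
    · simp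
  set E := Ideal.span {w} * m ^ l' ⊔ m ^ (l' + 2) with hE
  have hrel : (μ ^ (l' + 1 - a) - ∑ b ∈ Finset.range a, c b * μ ^ (l' + 1 - b)) * y2 ^ (l' + 1)
      ∈ E := by
    have e : (μ ^ (l' + 1 - a) - ∑ b ∈ Finset.range a, c b * μ ^ (l' + 1 - b)) * y2 ^ (l' + 1)
        = u - (y1 ^ (l' + 1 - a) * y2 ^ a - μ ^ (l' + 1 - a) * y2 ^ (l' + 1))
          + ∑ b ∈ Finset.range a,
            c b * (y1 ^ (l' + 1 - b) * y2 ^ b - μ ^ (l' + 1 - b) * y2 ^ (l' + 1)) := by
      have : ∑ b ∈ Finset.range a,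
            c b * (y1 ^ (l' + 1 - b) * y2 ^ b - μ ^ (l' + 1 - b) * y2 ^ (l' + 1))
          = (∑ b ∈ Finset.range a, c b * (y1 ^ (l' + 1 - b) * y2 ^ b))
            - (∑ b ∈ Finset.range a, c b * μ ^ (l' + 1 - b)) * y2 ^ (l' + 1) := by
        rw [Finset.sum_mul, ← Finset.sum_sub_distrib]
        apply Finset.sum_congr rfl
        intro b _
        ring
      rw [this, ← huv]
      ring
    rw [e]
    apply Ideal.add_mem
    · apply Ideal.sub_mem
      · exact Ideal.mem_sup_right hu
      · exact Ideal.mem_sup_left (key a ha)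
    · apply Ideal.sum_mem
      intro b hb
      rw [Finset.mem_range] at hb
      exact Ideal.mul_mem_left _ _ (Ideal.mem_sup_left (key b (by omega)))
  have hunit : IsUnit (μ ^ (l' + 1 - a) - ∑ b ∈ Finset.range a, c b * μ ^ (l' + 1 - b)) := by
    rw [← residue_ne_zero_iff_isUnit]
    convert ht using 1
    rw [hC]
    simp [Polynomial.eval_finsetSum]
  have hy2E : y2 ^ (l' + 1) ∈ E := by
    obtain ⟨q, hq⟩ := hunit
    rw [← hq] at hrel
    have := Ideal.mul_mem_left E ((q⁻¹ : Dˣ) : D) hrel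
    rwa [← mul_assoc, Units.inv_mul, one_mul] at this
  have wb2 : WB m w (Ideal.span {y2}) := by
    refine ⟨l', ?_⟩
    rw [Ideal.span_singleton_pow, Ideal.span_singleton_le_iff_mem]
    exact hy2E
  refine ⟨w, hwm, ?_, wb2⟩
  have hsp : Ideal.span {w} ≤ m := by rw [Ideal.span_singleton_le_iff_mem]; exact hwm
  have hsp2 : Ideal.span {y2} ≤ m := by rw [Ideal.span_singleton_le_iff_mem]; exact hy2
  apply (WB.sup hsp hsp2 WB.self wb2).mono
  rw [Ideal.span_singleton_le_iff_mem]
  have e : y1 = w + μ * y2 := by rw [hw]; ring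
  rw [e]
  apply Ideal.add_mem
  · exact Ideal.mem_sup_left (Ideal.mem_span_singleton_self _)
  · exact Ideal.mem_sup_right (Ideal.mul_mem_left _ _ (Ideal.mem_span_singleton_self _))

end two

end Red

open Red in
/-- Task J (principal reduction of the maximal ideal of a 1-dimensional CM ring). -/
theorem exists_reduction {D : Type} [CommRing D] [IsNoetherianRing D] [IsLocalRing D]
    (hinf : Infinite (ResidueField D)) (r : D) (hr : r ∈ maximalIdeal D)
    (hreg : r ∈ nonZeroDivisors D) (hart : IsArtinianRing (D ⧸ Ideal.span {r})) :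
    ∃ w ∈ maximalIdeal D, ∃ j : ℕ,
      maximalIdeal D ^ (j + 1) = Ideal.span {w} * maximalIdeal D ^ j := by
  classical
  have hord : Ring.ord D r ≠ ⊤ := by
    have : IsArtinian D (D ⧸ Ideal.span {r}) :=
      isArtinian_of_surjective_algebraMap (Ideal.Quotient.mk_surjective (I := Ideal.span {r}))
    exact Module.length_ne_top
  obtain ⟨l0, hl0⟩ := ENat.ne_top_iff_exists.1 hord
  have hl : Ring.ord D r ≤ ((l0 + 1 : ℕ) : ℕ∞) := by
    rw [← hl0]; exact_mod_cast Nat.le_succ l0
  set m := maximalIdeal D with hm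
  -- all elements of a finite set
  have hS : ∀ S : Finset D, (∀ y ∈ S, y ∈ m) →
      ∃ w ∈ m, ∀ y ∈ S, WB m w (Ideal.span {y}) := by
    intro S
    induction S using Finset.induction_on with
    | empty => intro _; exact ⟨0, Ideal.zero_mem _, by simp⟩
    | insert y S hy ih =>
      intro hyS
      obtain ⟨w', hw', hS'⟩ := ih (fun z hz => hyS z (Finset.mem_insert_of_mem hz))
      obtain ⟨w, hw, e1, e2⟩ := two hinf r hreg hl (by omega) hr hw' (hyS y (Finset.mem_insert_self _ _))
      refine ⟨w, hw, ?_⟩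
      intro z hz
      rcases Finset.mem_insert.1 hz with rfl | hz
      · exact e2
      · exact e1.trans hw' (hS' z hz)
  obtain ⟨S, hSm⟩ := (IsNoetherian.noetherian m : m.FG)
  have hSm' : ∀ y ∈ S, y ∈ m := fun y hy => by rw [← hSm]; exact Submodule.subset_span hy
  obtain ⟨w, hw, hwS⟩ := hS S hSm'
  have hsp : ∀ T : Finset D, T ⊆ S → WB m w (Ideal.span (T : Set D)) := by
    intro T
    induction T using Finset.induction_on with
    | empty => intro _; exact ⟨0, by simp⟩
    | insert y T hy ih =>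
      intro hyT
      have h1 := ih ((Finset.subset_insert _ _).trans hyT)
      have h2 := hwS y (hyT (Finset.mem_insert_self _ _))
      rw [Finset.coe_insert, Ideal.span_insert]
      apply WB.sup _ _ h2 h1
      · rw [Ideal.span_singleton_le_iff_mem]; exact hSm' y (hyT (Finset.mem_insert_self _ _))
      · rw [Ideal.span_le]
        intro z hz
        exact hSm' z (hyT (Finset.mem_insert_of_mem hz))
  have hwb : WB m w m := by
    have := hsp S subset_rfl
    have e : Ideal.span (S : Set D) = m := hSm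
    rwa [e] at this
  obtain ⟨b, hb⟩ := hwb
  refine ⟨w, hw, b, le_antisymm ?_ ?_⟩
  · apply Submodule.le_of_le_smul_of_le_jacobson_bot (I := m) (IsNoetherian.noetherian _)
      (IsLocalRing.maximalIdeal_le_jacobson _)
    refine hb.trans ?_
    rw [smul_eq_mul, ← pow_succ']
  · rw [pow_succ']
    apply Ideal.mul_mono_left
    rw [Ideal.span_singleton_le_iff_mem]; exact hw

end EA7
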