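import Pool.Agent.Lib.MP_ea7a64_al_h50.Vdef

/-!
# Dimension shifting
-/

set_option autoImplicit false
open IsLocalRing RingTheory.Sequence
open scoped Pointwise

namespace EA7

namespace Shift

section gen

variable {R : Type} [CommRing R] {N : Type} [AddCommGroup N] [Module R N] {r : R}

/-- the exact sequence given by a regular element -/
theorem sesR (hreg : IsSMulRegular N r) :
    SES (r • (LinearMap.id : N →ₗ[R] N)) (Submodule.mkQ (r • ⊤ : Submodule R N)) where
  inj := by
    intro a b hab
    exact hreg (by simpa using hab)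
  surj := Submodule.mkQ_surjective _
  exact := by
    intro x
    rw [Submodule.mkQ_apply, Submodule.Quotient.mk_eq_zero]
    constructor
    · intro hx
      rw [Submodule.mem_smul_pointwise_iff_exists] at hx
      obtain ⟨y, -, hy⟩ := hx
      exact ⟨y, by simpa using hy⟩
    · rintro ⟨y, hy⟩
      rw [Submodule.mem_smul_pointwise_iff_exists]
      exact ⟨y, trivial, by simpa using hy⟩

variable {X : Type} [AddCommGroup X] [Module R X]

/-- linear maps into `N / r N` lift if `Ext¹(X, N) = 0` -/
theorem lift_of_EZ (hreg : IsSMulRegular N r) (h : EZ (⊥ : Submodule R N) X)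
    (φ : X →ₗ[R] QuotSMulTop r N) :
    ∃ f : X →ₗ[R] N, ∀ x, Submodule.mkQ (r • ⊤ : Submodule R N) (f x) = φ x := by
  obtain ⟨F, _, _, _, π, hπ⟩ := exists_proj_cover (R := R) X
  have hs := SES.of_surj π hπ
  have hr := sesR hreg
  obtain ⟨f, hf⟩ := Module.projective_lifting_property
    (Submodule.mkQ (r • ⊤ : Submodule R N)) (φ ∘ₗ π) hr.surj
  have hf' : ∀ p, Submodule.mkQ (r • ⊤ : Submodule R N) (f p) = φ (π p) := fun p => by
    simpa using LinearMap.congr_fun hf p
  obtain ⟨g, hg⟩ := hr.lift (f ∘ₗ (LinearMap.ker π).subtype) (fun a => by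
    rw [LinearMap.comp_apply, hf', Submodule.subtype_apply]
    have := a.2
    rw [LinearMap.mem_ker] at this
    rw [this, map_zero])
  obtain ⟨b, hb⟩ := h.exact hs g
  obtain ⟨h0, hh0⟩ := hs.desc (f - r • b) (fun k => by
    have h1 := hb k
    rw [Submodule.mem_bot, sub_eq_zero] at h1
    have h2 := hg k
    rw [LinearMap.sub_apply, LinearMap.smul_apply, ← h1]
    rw [LinearMap.comp_apply] at h2
    rw [← h2]
    simp)
  refine ⟨h0, fun x => ?_⟩
  obtain ⟨p, rfl⟩ := hs.surj x
  rw [hh0, LinearMap.sub_apply, map_sub, hf', LinearMap.smul_apply]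
  have : Submodule.mkQ (r • ⊤ : Submodule R N) (r • b p) = 0 := by
    have := hr.comp_eq_zero (b p)
    simpa using this
  rw [this, sub_zero]

/-- going up with `StabZero` -/
theorem EZ_up (hreg : IsSMulRegular N r) (hX : StabZero r X)
    (h : EZ (⊥ : Submodule R (QuotSMulTop r N)) X) : EZ (⊥ : Submodule R N) X := by
  obtain ⟨F, _, _, _, π, hπ⟩ := exists_proj_cover (R := R) X
  have hs := SES.of_surj π hπ
  have hr := sesR hreg
  obtain ⟨τ, g, hτ, -, -⟩ := hX.tau hs
  refine EZ.of_exact hs (fun f => ?_)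
  obtain ⟨b0, hb0⟩ := h.exact hs (Submodule.mkQ (r • ⊤ : Submodule R N) ∘ₗ f)
  obtain ⟨b, hb⟩ := Module.projective_lifting_property
    (Submodule.mkQ (r • ⊤ : Submodule R N)) b0 hr.surj
  have hb' : ∀ p, Submodule.mkQ (r • ⊤ : Submodule R N) (b p) = b0 p := fun p => by
    simpa using LinearMap.congr_fun hb p
  obtain ⟨f1, hf1⟩ := hr.lift (f - b ∘ₗ (LinearMap.ker π).subtype) (fun a => by
    rw [LinearMap.sub_apply, map_sub, LinearMap.comp_apply, hb']
    have := hb0 a
    rw [Submodule.mem_bot] at this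
    exact this)
  refine ⟨b + f1 ∘ₗ τ, fun x => ?_⟩
  rw [Submodule.mem_bot, LinearMap.add_apply, LinearMap.comp_apply, hτ, map_smul]
  have h1 := hf1 x
  rw [LinearMap.smul_apply, LinearMap.id_apply, LinearMap.sub_apply, LinearMap.comp_apply] at h1
  rw [h1]
  abel

end gen

section loc

variable {R : Type} [CommRing R] [IsNoetherianRing R] [IsLocalRing R]

theorem V_equiv {N N' : Type} [AddCommGroup N] [Module R N] [AddCommGroup N'] [Module R N']
    (e : N ≃ₗ[R] N') {i : ℕ} (h : V (⊥ : Submodule R N) i) : V (⊥ : Submodule R N') i := by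
  cases i with
  | zero =>
    intro n hn
    have h1 := h (e.symm n) (fun y hy => by rw [← map_smul, hn y hy, map_zero])
    rw [Submodule.mem_bot] at h1 ⊢
    simpa using h1
  | succ i =>
    exact EZ.coeff h e (fun x hx => by
      rw [Submodule.mem_bot] at hx ⊢
      rw [hx, map_zero])

theorem kk_smul {y : R} (hy : y ∈ maximalIdeal R) (x : (kk R).C) : y • x = 0 := by
  have key : ∀ z : ResidueField R, y • z = 0 := by
    intro z
    rw [Algebra.smul_def, ResidueField.algebraMap_eq, (residue_eq_zero_iff y).2 hy, zero_mul]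
  exact key x

/-- elements of the image of a map from the residue field -/
theorem kk_map {N : Type} [AddCommGroup N] [Module R N] (h : V (⊥ : Submodule R N) 0)
    (f : (kk R).C →ₗ[R] N) (x : (kk R).C) : f x = 0 := by
  have h1 := h (f x) (fun y hy => by
    rw [← map_smul, kk_smul hy, map_zero])
  rwa [Submodule.mem_bot] at h1

end loc

end Shift

open Shift

/-- E0. every syzygy of k is stably annihilated by m. (StabZero.of_smul_eq_zero, StabZero.sy) -/
theorem stabZero_sy_kk {R : Type} [CommRing R] [IsNoetherianRing R] [IsLocalRing R] (y : R)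
    (hy : y ∈ maximalIdeal R) (i : ℕ) : StabZero y (Sy (kk R) i).C := by
  apply StabZero.sy
  apply StabZero.of_smul_eq_zero
  exact kk_smul hy

namespace Shift

variable {R : Type} [CommRing R] [IsNoetherianRing R] [IsLocalRing R]

theorem V_up {N : Type} [AddCommGroup N] [Module R N] {r : R} (hr : r ∈ maximalIdeal R)
    (hreg : IsSMulRegular N r) {i : ℕ} (h : V (⊥ : Submodule R (QuotSMulTop r N)) i) :
    V (⊥ : Submodule R N) (i + 1) := by
  have hq := sesR hreg
  have hs := ses (Sy (kk R) i)
  obtain ⟨τ, g, hτ, hτ2, -⟩ := (stabZero_sy_kk r hr i).tau hs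
  refine EZ.of_exact hs (fun φ => ?_)
  -- the induced map
  obtain ⟨u, hu⟩ := hs.desc (Submodule.mkQ (r • ⊤ : Submodule R N) ∘ₗ φ ∘ₗ τ) (fun k => by
    rw [LinearMap.comp_apply, LinearMap.comp_apply, hτ, map_smul]
    have := hq.comp_eq_zero (φ k)
    simpa using this)
  -- it lifts
  obtain ⟨H, hH⟩ : ∃ H : (Sy (kk R) i).C →ₗ[R] N,
      ∀ x, Submodule.mkQ (r • ⊤ : Submodule R N) (H x) = u x := by
    cases i with
    | zero => exact ⟨0, fun x => (map_zero _).trans (kk_map h u x).symm⟩
    | succ j =>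
      have hs' := ses (Sy (kk R) j)
      obtain ⟨b, hb⟩ := EZ.exact h hs' u
      obtain ⟨b', hb'⟩ := Module.projective_lifting_property
        (Submodule.mkQ (r • ⊤ : Submodule R N)) b hq.surj
      refine ⟨b' ∘ₗ inc (Sy (kk R) j), fun x => ?_⟩
      have h1 := hb x
      rw [Submodule.mem_bot, sub_eq_zero] at h1
      have h2 := LinearMap.congr_fun hb' (inc (Sy (kk R) j) x)
      rw [LinearMap.comp_apply] at h2
      exact h2.trans h1.symm
  obtain ⟨b, hb⟩ := hq.lift (φ ∘ₗ τ - H ∘ₗ cov (Sy (kk R) i)) (fun p => by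
    rw [LinearMap.sub_apply, map_sub, LinearMap.comp_apply, LinearMap.comp_apply, hH, hu,
      LinearMap.comp_apply, LinearMap.comp_apply, sub_self])
  refine ⟨b, fun x => ?_⟩
  rw [Submodule.mem_bot, sub_eq_zero]
  apply hreg
  have h1 := hb (inc (Sy (kk R) i) x)
  rw [LinearMap.smul_apply, LinearMap.id_apply, LinearMap.sub_apply, LinearMap.comp_apply,
    LinearMap.comp_apply, hτ, hs.comp_eq_zero, map_zero, sub_zero, map_smul] at h1
  exact h1.symm

end Shift

/-- E1 (α). -/
theorem V_lt {R : Type} [CommRing R] [IsNoetherianRing R] [IsLocalRing R] (N : Type)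
    [AddCommGroup N] [Module R N] (rs : List R) (hm : ∀ r ∈ rs, r ∈ maximalIdeal R)
    (hN : IsWeaklyRegular N rs) : ∀ i < rs.length, V (⊥ : Submodule R N) i := by
  induction rs generalizing N with
  | nil => intro i hi; simp at hi
  | cons r rs ih =>
    rw [isWeaklyRegular_cons_iff] at hN
    intro i hi
    cases i with
    | zero =>
      intro n hn
      rw [Submodule.mem_bot]
      apply hN.1
      change r • n = r • (0 : N)
      rw [hn r (hm r (by simp)), smul_zero]
    | succ i =>
      apply V_up (hm r (by simp)) hN.1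
      apply ih (QuotSMulTop r N) (fun x hx => hm x (by simp [hx])) hN.2
      simpa using hi

/-- E2 (δ). -/
theorem V_quot {R : Type} [CommRing R] [IsNoetherianRing R] [IsLocalRing R] (N : Type)
    [AddCommGroup N] [Module R N] (r : R) (hr : r ∈ maximalIdeal R) (hreg : IsSMulRegular N r)
    (i : ℕ) (h1 : V (⊥ : Submodule R N) i) (h2 : V (⊥ : Submodule R N) (i + 1)) :
    V (⊥ : Submodule R (QuotSMulTop r N)) i := by
  have hq := sesR hreg
  cases i with
  | zero =>
    intro n hn
    rw [Submodule.mem_bot]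
    -- the map `k → N/r`
    have hle : maximalIdeal R ≤ LinearMap.ker (LinearMap.toSpanSingleton R (QuotSMulTop r N) n) := by
      intro y hy
      rw [LinearMap.mem_ker, LinearMap.toSpanSingleton_apply]
      exact hn y hy
    let φ : (kk R).C →ₗ[R] QuotSMulTop r N :=
      Submodule.liftQ (maximalIdeal R) (LinearMap.toSpanSingleton R (QuotSMulTop r N) n) hle
    obtain ⟨f, hf⟩ := lift_of_EZ hreg h2 φ
    have e1 : φ (Submodule.mkQ (maximalIdeal R) 1) = n := by
      change Submodule.liftQ (maximalIdeal R) _ hle (Submodule.mkQ (maximalIdeal R) 1) = n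
      rw [Submodule.mkQ_apply, Submodule.liftQ_apply, LinearMap.toSpanSingleton_apply, one_smul]
    have e2 := hf (Submodule.mkQ (maximalIdeal R) 1 : R ⧸ maximalIdeal R)
    have e3 : f (Submodule.mkQ (maximalIdeal R) 1 : R ⧸ maximalIdeal R) = 0 := kk_map h1 f _
    rw [e3, map_zero] at e2
    exact e1.symm.trans e2.symm
  | succ j =>
    refine EZ.of_exact (ses (Sy (kk R) j)) (fun φ => ?_)
    obtain ⟨f, hf⟩ := lift_of_EZ hreg h2 φ
    obtain ⟨b, hb⟩ := EZ.exact h1 (ses (Sy (kk R) j)) f
    refine ⟨Submodule.mkQ (r • ⊤ : Submodule R N) ∘ₗ b, fun x => ?_⟩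
    have h3 := hb x
    rw [Submodule.mem_bot, sub_eq_zero] at h3
    rw [Submodule.mem_bot, LinearMap.comp_apply, ← h3]
    exact sub_eq_zero.2 (hf x).symm

/-- all vanishing passes to the quotient by a regular element -/
theorem V_all_step {R : Type} [CommRing R] [IsNoetherianRing R] [IsLocalRing R] (N : Type)
    [AddCommGroup N] [Module R N] (rs : List R) (hm : ∀ r ∈ rs, r ∈ maximalIdeal R)
    (hN : IsWeaklyRegular N rs) (h : ∀ i, V (⊥ : Submodule R N) i) :
    ∀ i, V (⊥ : Submodule R (N ⧸ (Ideal.ofList rs • ⊤ : Submodule R N))) i := by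
  induction rs generalizing N with
  | nil =>
    intro i
    have e : (Ideal.ofList ([] : List R) • ⊤ : Submodule R N) = ⊥ := by
      rw [Ideal.ofList_nil, Submodule.bot_smul]
    exact V_equiv (Submodule.quotEquivOfEqBot _ e).symm (h i)
  | cons r rs ih =>
    rw [isWeaklyRegular_cons_iff] at hN
    intro i
    have h1 : ∀ i, V (⊥ : Submodule R (QuotSMulTop r N)) i := fun i =>
      V_quot N r (hm r (by simp)) hN.1 i (h i) (h (i + 1))
    have h2 := ih (QuotSMulTop r N) (fun x hx => hm x (by simp [hx])) hN.2 h1 i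
    exact V_equiv (Submodule.quotOfListConsSMulTopEquivQuotSMulTopInner N r rs).symm h2

/-- E2'. Induction on rs from E2. -/
theorem V_all_quot {R : Type} [CommRing R] [IsNoetherianRing R] [IsLocalRing R] (N : Type)
    [AddCommGroup N] [Module R N] (rs : List R) (hm : ∀ r ∈ rs, r ∈ maximalIdeal R)
    (hN : IsWeaklyRegular N rs) (h : ∀ i, V (⊥ : Submodule R N) i) :
    V (⊥ : Submodule R (N ⧸ (Ideal.ofList rs • ⊤ : Submodule R N))) 0 :=
  V_all_step N rs hm hN h 0

/-- E3 (β). -/
theorem EZ_of_quot {R : Type} [CommRing R] (N X : Type) [AddCommGroup N] [Module R N]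
    [AddCommGroup X] [Module R X] (rs : List R) (hX : ∀ r ∈ rs, StabZero r X)
    (hN : IsWeaklyRegular N rs)
    (h : EZ (⊥ : Submodule R (N ⧸ (Ideal.ofList rs • ⊤ : Submodule R N))) X) :
    EZ (⊥ : Submodule R N) X := by
  induction rs generalizing N with
  | nil =>
    have e : (Ideal.ofList ([] : List R) • ⊤ : Submodule R N) = ⊥ := by
      rw [Ideal.ofList_nil, Submodule.bot_smul]
    exact h.coeff (Submodule.quotEquivOfEqBot _ e) (fun x hx => by
      rw [Submodule.mem_bot] at hx ⊢
      rw [hx, map_zero])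
  | cons r rs ih =>
    rw [isWeaklyRegular_cons_iff] at hN
    apply EZ_up hN.1 (hX r (by simp))
    apply ih (QuotSMulTop r N) (fun x hx => hX x (by simp [hx])) hN.2
    exact h.coeff (Submodule.quotOfListConsSMulTopEquivQuotSMulTopInner N r rs) (fun x hx => by
      rw [Submodule.mem_bot] at hx ⊢
      rw [hx, map_zero])

end EA7
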